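import Pool.Agent.H76.PS.Defs

/-!
# Parity of Selmer groups: jobs A1, A2, A3
-/

set_option autoImplicit false
set_option linter.unusedSectionVars false

namespace Pool.Agent.K7.H10.PS

open Pool.Agent.H76.PS

section basic

variable {G : Type} [Group G] [TopologicalSpace G] {Q : Subgroup G}

open Classical in
/-- extension by zero -/
noncomputable def ex (Q : Subgroup G) (a : Q → ZMod 2) (g : G) : ZMod 2 :=
  if h : g ∈ Q then a ⟨g, h⟩ else 0

theorem ex_mem (a : Q → ZMod 2) {g : G} (h : g ∈ Q) : ex Q a g = a ⟨g, h⟩ := by simp [ex, h]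

theorem ex_not (a : Q → ZMod 2) {g : G} (h : g ∉ Q) : ex Q a g = 0 := by simp [ex, h]

theorem chi_mem {g : G} (h : g ∈ Q) : chi Q g = 0 := by simp [chi, h]

theorem chi_not {g : G} (h : g ∉ Q) : chi Q g = 1 := by simp [chi, h]

variable [IsTopologicalGroup G]

theorem ex_lc (hQ : IsOpen (Q : Set G)) {a : Q → ZMod 2} (ha : IsLocallyConstant a) :
    IsLocallyConstant (ex Q a) := by
  rw [IsLocallyConstant.iff_exists_open]
  intro x
  by_cases hx : x ∈ Q
  · obtain ⟨U, hU, hxU, h⟩ := (IsLocallyConstant.iff_exists_open a).1 ha ⟨x, hx⟩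
    refine ⟨Subtype.val '' U, hQ.isOpenMap_subtype_val U hU, ⟨⟨x, hx⟩, hxU, rfl⟩, ?_⟩
    rintro y ⟨z, hz, rfl⟩
    rw [ex_mem a hx, ex_mem a z.2]
    exact h z hz
  · refine ⟨(Q : Set G)ᶜ, (Subgroup.isClosed_of_isOpen Q hQ).isOpen_compl, hx, fun y hy => ?_⟩
    rw [ex_not a hx, ex_not a hy]

theorem chi_lc (hQ : IsOpen (Q : Set G)) : IsLocallyConstant (chi Q) := by
  rw [IsLocallyConstant.iff_exists_open]
  intro x
  by_cases hx : x ∈ Q
  · refine ⟨Q, hQ, hx, fun y hy => ?_⟩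
    rw [chi_mem hx, chi_mem hy]
  · refine ⟨(Q : Set G)ᶜ, (Subgroup.isClosed_of_isOpen Q hQ).isOpen_compl, hx, fun y hy => ?_⟩
    rw [chi_not hx, chi_not hy]

theorem lc_mulr {X : Type} {f : G → X} (hf : IsLocallyConstant f) (t : G) :
    IsLocallyConstant (fun g => f (g * t)) :=
  hf.comp_continuous (continuous_mul_const t)

theorem lc_mull {X : Type} {f : G → X} (hf : IsLocallyConstant f) (t : G) :
    IsLocallyConstant (fun g => f (t * g)) :=
  hf.comp_continuous (continuous_const_mul t)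

end basic

section ind

variable {G : Type} [Group G] [TopologicalSpace G] {Q : Subgroup G}

theorem mem2 (h2 : Q.index = 2) {a b : G} : a * b ∈ Q ↔ (a ∈ Q ↔ b ∈ Q) :=
  Subgroup.mul_mem_iff_of_index_two h2

theorem mulr_mem (h2 : Q.index = 2) {t g : G} (ht : t ∉ Q) : g * t⁻¹ ∈ Q ↔ g ∉ Q := by
  rw [mem2 h2, inv_mem_iff]; tauto

theorem mull_mem (h2 : Q.index = 2) {t g : G} (ht : t ∉ Q) : t * g ∈ Q ↔ g ∉ Q := by
  rw [mem2 h2]; tauto

variable [IsTopologicalGroup G]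

/-- The general lemma: a cochain which satisfies the cocycle identity for the first argument in `Q` and is a
coboundary on `Q`. -/
theorem key (hQ : IsOpen (Q : Set G)) (h2 : Q.index = 2) {t : G} (ht : t ∉ Q) (E : G → G → ZMod 2)
    (hE : IsLocallyConstant (fun v : G × G => E v.1 v.2))
    (hD : ∀ q ∈ Q, ∀ h k, E h k + E (q * h) k + E q (h * k) + E q h = 0)
    (hB : ∃ a : Q → ZMod 2, IsLocallyConstant a ∧ ∀ x y : Q, E x y = a x + a y + a (x * y)) :
    ∃ α s : G → ZMod 2, IsLocallyConstant α ∧ IsLocallyConstant s ∧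
      (∀ g k, E g k = α g + α k + α (g * k) + chi Q g * s k) ∧
      ∀ h k, E h k + E (t * h) k + E t (h * k) + E t h = s h + s k + s (h * k) := by
  obtain ⟨a, ha, hab⟩ := hB
  have hE1 : ∀ u : G, IsLocallyConstant (fun g => E g u) := fun u =>
    hE.comp_continuous (f := fun g : G => (g, u)) (by fun_prop)
  have hE2 : ∀ u : G, IsLocallyConstant (fun g => E u g) := fun u =>
    hE.comp_continuous (f := fun g : G => (u, g)) (by fun_prop)
  set α : G → ZMod 2 := fun g => ex Q a g + ex Q a (g * t⁻¹) + chi Q g * E (g * t⁻¹) t with hα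
  have hαl : IsLocallyConstant α :=
    ((ex_lc hQ ha).add (lc_mulr (ex_lc hQ ha) t⁻¹)).add ((chi_lc hQ).mul (lc_mulr (hE1 t) t⁻¹))
  have hαm : ∀ g (hg : g ∈ Q), α g = a ⟨g, hg⟩ := by
    intro g hg
    have h1 : g * t⁻¹ ∉ Q := by rw [mulr_mem h2 ht]; simpa using hg
    simp only [hα]
    rw [ex_mem a hg, ex_not a h1, chi_mem hg]
    simp
  have hαn : ∀ g, g ∉ Q → α g = α (g * t⁻¹) + E (g * t⁻¹) t := by
    intro g hg
    have h1 : g * t⁻¹ ∈ Q := by rw [mulr_mem h2 ht]; exact hg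
    rw [hαm _ h1]
    simp only [hα]
    rw [ex_mem a h1, ex_not a hg, chi_not hg]
    simp
  -- first argument in Q
  have hI : ∀ q ∈ Q, ∀ h, E q h = α q + α h + α (q * h) := by
    intro q hq h
    by_cases hh : h ∈ Q
    · have h1 := hab ⟨q, hq⟩ ⟨h, hh⟩
      rw [hαm q hq, hαm h hh, hαm (q * h) (Q.mul_mem hq hh)]
      exact h1
    · have h1 : h * t⁻¹ ∈ Q := by rw [mulr_mem h2 ht]; exact hh
      have h3 : q * h ∉ Q := by rw [mem2 h2]; tauto
      have h4 := hD q hq (h * t⁻¹) t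
      have h5 := hab ⟨q, hq⟩ ⟨h * t⁻¹, h1⟩
      have h6 : E q (h * t⁻¹) = α q + α (h * t⁻¹) + α (q * (h * t⁻¹)) := by
        rw [hαm q hq, hαm _ h1, hαm _ (Q.mul_mem hq h1)]
        exact h5
      have h7 := hαn h hh
      have h8 := hαn (q * h) h3
      rw [inv_mul_cancel_right] at h4
      rw [mul_assoc q h t⁻¹] at h8
      grind
  have hII : ∀ g, g ∉ Q → ∀ k, E g k = E t k + α (t * k) + α (g * k) + α t + α g := by
    intro g hg k
    have h1 : g * t⁻¹ ∈ Q := by rw [mulr_mem h2 ht]; exact hg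
    have h3 := hD (g * t⁻¹) h1 t k
    rw [inv_mul_cancel_right] at h3
    have h4 := hI _ h1 (t * k)
    have h5 := hI _ h1 t
    rw [inv_mul_cancel_right] at h5
    rw [show g * t⁻¹ * (t * k) = g * k by group] at h4
    grind
  refine ⟨α, fun k => α k + (E t k + α (t * k) + α t), hαl,
    hαl.add (((hE2 t).add (lc_mull hαl t)).add (IsLocallyConstant.const _)), ?_, ?_⟩
  · intro g k
    by_cases hg : g ∈ Q
    · rw [chi_mem hg, hI g hg k]; ring
    · rw [chi_not hg, hII g hg k]; grind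
  · intro h k
    beta_reduce
    rw [show t * (h * k) = t * h * k by group]
    by_cases hh : h ∈ Q
    · have h1 : t * h ∉ Q := by rw [mull_mem h2 ht]; simpa using hh
      rw [hI h hh k, hII _ h1 k]
      grind
    · have h1 : t * h ∈ Q := by rw [mull_mem h2 ht]; simpa using hh
      rw [hII h hh k, hI _ h1 k]
      grind

end ind

/-- Job A1 -/
theorem stA1 : StA1 := by
  intro G _ _ _ Q hQ h2 e he hr
  obtain ⟨t, ht⟩ : ∃ t : G, t ∉ Q := by
    by_contra h
    push Not at h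
    have : Q = ⊤ := by ext; simp [h]
    rw [this, Subgroup.index_top] at h2
    omega
  obtain ⟨a, ha, hab⟩ := hr
  obtain ⟨α, s, hα, hs, h3, h4⟩ := key hQ h2 ht e he.1 (fun q _ h k => he.2 q h k) ⟨a, ha, hab⟩
  refine ⟨s, ⟨hs, fun x y => ?_⟩, α, hα, fun x y => ?_⟩
  · have h5 := h4 x y
    rw [he.2 t x y] at h5
    grind
  · have h5 := h3 x y
    simp only [Pi.add_apply, cup]
    grind

section cor

variable {G : Type} [Group G] [TopologicalSpace G] {Q : Subgroup G}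

theorem bt_eq (h2 : Q.index = 2) {t : G} (ht : t ∉ Q) (b : Q → ZMod 2) (g : G) :
    bt Q t b g = ex Q b g + ex Q b (g * t⁻¹) := by
  unfold bt
  by_cases hg : g ∈ Q
  · have h1 : g * t⁻¹ ∉ Q := by rw [mulr_mem h2 ht]; simpa using hg
    rw [ex_mem b hg, ex_not b h1]
    simp [hg]
  · have h1 : g * t⁻¹ ∈ Q := by rw [mulr_mem h2 ht]; exact hg
    rw [ex_mem b h1, ex_not b hg]
    simp [hg, h1]

theorem bt_mem (h2 : Q.index = 2) {t : G} (ht : t ∉ Q) (b : Q → ZMod 2) {g : G} (hg : g ∈ Q) :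
    bt Q t b g = b ⟨g, hg⟩ := by
  have h1 : g * t⁻¹ ∉ Q := by rw [mulr_mem h2 ht]; simpa using hg
  rw [bt_eq h2 ht, ex_mem b hg, ex_not b h1, add_zero]

theorem bt_not (h2 : Q.index = 2) {t : G} (ht : t ∉ Q) (b : Q → ZMod 2) {g : G} (hg : g ∉ Q) :
    bt Q t b g = bt Q t b (g * t⁻¹) := by
  have h1 : g * t⁻¹ ∈ Q := by rw [mulr_mem h2 ht]; exact hg
  rw [bt_eq h2 ht, ex_not b hg, bt_mem h2 ht b h1, ex_mem b h1, zero_add]

/-- `β (q g) = b (q) + β (g)` -/
theorem bt_mul (h2 : Q.index = 2) {t : G} (ht : t ∉ Q) {b : Q → ZMod 2} (hb : b ∈ HS Q) {q : G} (hq : q ∈ Q)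
    (g : G) : bt Q t b (q * g) = bt Q t b q + bt Q t b g := by
  by_cases hg : g ∈ Q
  · rw [bt_mem h2 ht b hq, bt_mem h2 ht b hg, bt_mem h2 ht b (Q.mul_mem hq hg)]
    exact hb.2 ⟨q, hq⟩ ⟨g, hg⟩
  · have h1 : g * t⁻¹ ∈ Q := by rw [mulr_mem h2 ht]; exact hg
    have h3 : q * g ∉ Q := by rw [mem2 h2]; tauto
    rw [bt_not h2 ht b h3, bt_not h2 ht b hg, mul_assoc, bt_mem h2 ht b hq, bt_mem h2 ht b h1,
      bt_mem h2 ht b (Q.mul_mem hq h1)]
    exact hb.2 ⟨q, hq⟩ ⟨_, h1⟩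

/-- `β (x g) = β (x) + β (t g)` for `x ∉ Q` -/
theorem bt_mul' (h2 : Q.index = 2) {t : G} (ht : t ∉ Q) {b : Q → ZMod 2} (hb : b ∈ HS Q) {x : G} (hx : x ∉ Q)
    (g : G) : bt Q t b (x * g) = bt Q t b x + bt Q t b (t * g) := by
  have h1 : x * t⁻¹ ∈ Q := by rw [mulr_mem h2 ht]; exact hx
  rw [bt_not h2 ht b hx, ← bt_mul h2 ht hb h1]
  congr 1
  group

theorem cor_mul (h2 : Q.index = 2) {t : G} (ht : t ∉ Q) {b : Q → ZMod 2} (hb : b ∈ HS Q) (g h : G) :
    cor Q t b (g * h) = cor Q t b g + cor Q t b h := by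
  unfold cor
  by_cases hg : g ∈ Q
  · have h1 : t * g ∉ Q := by rw [mull_mem h2 ht]; simpa using hg
    rw [bt_mul h2 ht hb hg h, ← mul_assoc, bt_mul' h2 ht hb h1 h]
    ring
  · have h1 : t * g ∈ Q := by rw [mull_mem h2 ht]; exact hg
    rw [bt_mul' h2 ht hb hg h, ← mul_assoc, bt_mul h2 ht hb h1 h]
    ring

variable [IsTopologicalGroup G]

theorem bt_lc (hQ : IsOpen (Q : Set G)) (h2 : Q.index = 2) {t : G} (ht : t ∉ Q) {b : Q → ZMod 2}
    (hb : IsLocallyConstant b) : IsLocallyConstant (bt Q t b) := by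
  have h1 : bt Q t b = fun g => ex Q b g + ex Q b (g * t⁻¹) := funext (bt_eq h2 ht b)
  rw [h1]
  exact (ex_lc hQ hb).add (lc_mulr (ex_lc hQ hb) t⁻¹)

end cor

/-- Job A2 -/
theorem stA2 : StA2 := by
  intro G _ _ _ Q t hQ h2 ht
  refine ⟨fun b hb => ⟨?_, cor_mul h2 ht hb⟩, fun b b' => ?_, fun b hb => ⟨fun h => ?_, ?_⟩,
    fun y hy => ⟨?_, ?_⟩⟩
  · exact (bt_lc hQ h2 ht hb.1).add (lc_mull (bt_lc hQ h2 ht hb.1) t)
  · funext g
    have h1 : ∀ g, bt Q t (b + b') g = bt Q t b g + bt Q t b' g := by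
      intro g
      have h3 : ∀ g, ex Q (b + b') g = ex Q b g + ex Q b' g := by
        intro g
        by_cases hg : g ∈ Q
        · simp [ex_mem _ hg]
        · simp [ex_not _ hg]
      rw [bt_eq h2 ht, bt_eq h2 ht, bt_eq h2 ht, h3, h3]
      ring
    simp only [cor, Pi.add_apply, h1]
    ring
  · refine ⟨bt Q t b, ⟨bt_lc hQ h2 ht hb.1, fun x y => ?_⟩, fun q => (bt_mem h2 ht b q.2).symm⟩
    by_cases hx : x ∈ Q
    · exact bt_mul h2 ht hb hx y
    · rw [bt_mul' h2 ht hb hx y]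
      have h3 := congrFun h y
      simp only [cor, Pi.zero_apply] at h3
      grind
  · rintro ⟨ψ, hψ, h⟩
    funext g
    have h3 : ∀ g, bt Q t b g = ψ g + chi Q g * ψ t := by
      intro g
      by_cases hg : g ∈ Q
      · rw [bt_mem h2 ht b hg, chi_mem hg, h]; simp
      · have h1 : g * t⁻¹ ∈ Q := by rw [mulr_mem h2 ht]; exact hg
        rw [bt_not h2 ht b hg, bt_mem h2 ht b h1, chi_not hg, h]
        have h4 := hψ.2 (g * t⁻¹) t
        rw [inv_mul_cancel_right] at h4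
        show ψ (g * t⁻¹) = _
        grind
    simp only [cor, Pi.zero_apply, h3]
    have h5 := hψ.2 t g
    by_cases hg : g ∈ Q
    · have h1 : t * g ∉ Q := by rw [mull_mem h2 ht]; simpa using hg
      rw [chi_mem hg, chi_not h1]; grind
    · have h1 : t * g ∈ Q := by rw [mull_mem h2 ht]; exact hg
      rw [chi_not hg, chi_mem h1]; grind
  · rintro ⟨f, hf, h⟩
    have h3 : ∀ q ∈ Q, ∀ g, f (q * g) = f q + f g := by
      intro q hq g
      have h4 := h q g
      simp only [cup, chi_mem hq] at h4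
      grind
    have hb : (fun q : Q => f q) ∈ HS Q :=
      ⟨hf.comp_continuous continuous_subtype_val, fun x y => h3 x x.2 y⟩
    refine ⟨fun q => f q, hb, funext fun g => ?_⟩
    have h4 : ∀ g, bt Q t (fun q => f q) g = f g + chi Q g * f t := by
      intro g
      by_cases hg : g ∈ Q
      · rw [bt_mem h2 ht _ hg, chi_mem hg]; simp
      · have h1 : g * t⁻¹ ∈ Q := by rw [mulr_mem h2 ht]; exact hg
        rw [bt_not h2 ht _ hg, bt_mem h2 ht _ h1, chi_not hg]
        have h4 := h3 (g * t⁻¹) h1 t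
        rw [inv_mul_cancel_right] at h4
        show f (g * t⁻¹) = _
        grind
    have h5 := h t g
    simp only [cup, chi_not ht] at h5
    simp only [cor, h4]
    by_cases hg : g ∈ Q
    · have h1 : t * g ∉ Q := by rw [mull_mem h2 ht]; simpa using hg
      rw [chi_mem hg, chi_not h1]; grind
    · have h1 : t * g ∈ Q := by rw [mull_mem h2 ht]; exact hg
      rw [chi_not hg, chi_mem h1]; grind
  · rintro ⟨b, hb, rfl⟩
    refine ⟨bt Q t b, bt_lc hQ h2 ht hb.1, fun x g => ?_⟩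
    simp only [cup, cor]
    by_cases hx : x ∈ Q
    · rw [chi_mem hx, bt_mul h2 ht hb hx]; grind
    · rw [chi_not hx, bt_mul' h2 ht hb hx]; grind

/-- Job A3 -/
theorem stA3 : StA3 := by
  intro G _ _ _ Q t hQ h2 ht e he ψ hψ b hb hr
  obtain ⟨a, ha, hab⟩ := hr
  have hbl := bt_lc hQ h2 ht hb.1
  have hE : IsLocallyConstant (fun v : G × G => e v.1 v.2 + ψ v.1 * (bt Q t b (v.1 * v.2) + bt Q t b v.1)) :=
    he.1.add ((hψ.1.comp_continuous (f := fun v : G × G => v.1) continuous_fst).mul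
      ((hbl.comp_continuous (f := fun v : G × G => v.1 * v.2) continuous_mul).add
        (hbl.comp_continuous (f := fun v : G × G => v.1) continuous_fst)))
  have k1 : ∀ q ∈ Q, ∀ h k, (e h k + ψ h * (bt Q t b (h * k) + bt Q t b h)) +
      (e (q * h) k + ψ (q * h) * (bt Q t b (q * h * k) + bt Q t b (q * h))) +
      (e q (h * k) + ψ q * (bt Q t b (q * (h * k)) + bt Q t b q)) +
      (e q h + ψ q * (bt Q t b (q * h) + bt Q t b q)) = 0 := by
    intro q hq h k
    have h5 := he.2 q h k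
    have h6 := hψ.2 q h
    have h7 := bt_mul h2 ht hb hq h
    have h8 := bt_mul h2 ht hb hq (h * k)
    simp only [mul_assoc] at h5 h6 h7 h8 ⊢
    rw [h6, h7, h8]
    grind
  have k2 : ∀ x y : Q, e x y + ψ x * (bt Q t b (x * y) + bt Q t b x) = a x + a y + a (x * y) := by
    intro x y
    have h5 := hab x y
    simp only [Pi.add_apply, rs, cup] at h5
    rw [← h5, bt_mul h2 ht hb x.2, bt_mem h2 ht b y.2]
    grind
  obtain ⟨α, s, hα, hs, h3, h4⟩ := key hQ h2 ht
    (fun g h => e g h + ψ g * (bt Q t b (g * h) + bt Q t b g)) hE k1 ⟨a, ha, k2⟩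
  refine ⟨s, hs, fun x y => ?_⟩
  rw [← h4 x y]
  have h5 := he.2 t x y
  have h6 := hψ.2 t x
  have h7 := cor_mul h2 ht hb x y
  simp only [cor] at h7
  simp only [cup, cor, mul_assoc] at h5 h6 h7 ⊢
  rw [h6]
  have h8 : bt Q t b y + bt Q t b (t * y) = bt Q t b (x * y) + bt Q t b (t * (x * y)) +
    (bt Q t b x + bt Q t b (t * x)) := by grind
  rw [h8]
  grind

end Pool.Agent.K7.H10.PS
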